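import Pool.Agent.H640H.Graph

set_option autoImplicit false

/-!
Harmonic labelings of `G × ℤ` for the infinite graphs `G` of maximum degree at most one.
-/

namespace Pool.Agent.Results.MP_997ab3_co.MaxDegreeOne

open SimpleGraph

/-- The two-way infinite path. -/
def line : SimpleGraph ℤ where
  Adj i j := j = i + 1 ∨ i = j + 1
  symm := ⟨fun _ _ h => h.symm⟩
  loopless := ⟨fun i h => by omega⟩

/-- The function `φ` on the vertices of `H` is a bijection onto the integers, every vertex of `H`
has finite positive degree, and the value of `φ` at every vertex is the average of its values at the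
neighbours. -/
def IsHarmonicLabeling {W : Type*} (H : SimpleGraph W) (φ : W → ℤ) : Prop :=
  Function.Bijective φ ∧ ∀ x, ∃ N : Finset W, (∀ y, y ∈ N ↔ H.Adj x y) ∧ 0 < N.card ∧
    (φ x : ℚ) = (∑ y ∈ N, (φ y : ℚ)) / N.card

/-- For every countably infinite graph `G` in which every vertex has at most one neighbour, the
Cartesian product of `G` and the two-way infinite path has a harmonic labeling. -/
theorem result {V : Type*} [Countable V] [Infinite V] (G : SimpleGraph V)
    (hG : ∀ v w w', G.Adj v w → G.Adj v w' → w = w') :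
    ∃ φ : V × ℤ → ℤ, IsHarmonicLabeling (G □ line) φ := by
  classical
  obtain ⟨φ, h1, h2, h3⟩ := Pool.Agent.H640H.main G hG
  refine ⟨φ, h1, ?_⟩
  rintro ⟨v, i⟩
  by_cases hv : ∃ w, G.Adj v w
  · obtain ⟨w, hw⟩ := hv
    have hne : w ≠ v := hw.ne'
    refine ⟨{(v, i + 1), (v, i - 1), (w, i)}, ?_, ?_⟩
    · rintro ⟨u, j⟩
      simp only [Finset.mem_insert, Finset.mem_singleton, Prod.mk.injEq, boxProd_adj, line]
      constructor
      · rintro (⟨rfl, rfl⟩ | ⟨rfl, rfl⟩ | ⟨rfl, rfl⟩)
        · exact Or.inr ⟨Or.inl rfl, rfl⟩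
        · exact Or.inr ⟨Or.inr (by ring), rfl⟩
        · exact Or.inl ⟨hw, rfl⟩
      · rintro (⟨h, rfl⟩ | ⟨h | h, rfl⟩)
        · exact Or.inr (Or.inr ⟨hG _ _ _ h hw, rfl⟩)
        · exact Or.inl ⟨rfl, h⟩
        · exact Or.inr (Or.inl ⟨rfl, by omega⟩)
    · have hc : ({(v, i + 1), (v, i - 1), (w, i)} : Finset (V × ℤ)).card = 3 := by
        rw [Finset.card_eq_three]
        refine ⟨_, _, _, ?_, ?_, ?_, rfl⟩
        · intro h
          have := congrArg Prod.snd h
          simp only at this
          omega
        · intro h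
          exact hne (congrArg Prod.fst h).symm
        · intro h
          exact hne (congrArg Prod.fst h).symm
      refine ⟨by rw [hc]; norm_num, ?_⟩
      rw [hc, Finset.sum_insert, Finset.sum_insert, Finset.sum_singleton]
      · have h4 := h3 v w i hw
        have h5 : (3 : ℚ) * φ (v, i) = φ (v, i + 1) + φ (v, i - 1) + φ (w, i) := by
          exact_mod_cast h4
        push_cast
        linarith
      · simp only [Finset.mem_singleton, Prod.mk.injEq, not_and]
        intro h
        exact absurd h.symm hne
      · simp only [Finset.mem_insert, Finset.mem_singleton, Prod.mk.injEq, not_or, not_and]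
        exact ⟨fun _ => by omega, fun h => absurd h.symm hne⟩
  · push Not at hv
    refine ⟨{(v, i + 1), (v, i - 1)}, ?_, ?_⟩
    · rintro ⟨u, j⟩
      simp only [Finset.mem_insert, Finset.mem_singleton, Prod.mk.injEq, boxProd_adj, line]
      constructor
      · rintro (⟨rfl, rfl⟩ | ⟨rfl, rfl⟩)
        · exact Or.inr ⟨Or.inl rfl, rfl⟩
        · exact Or.inr ⟨Or.inr (by ring), rfl⟩
      · rintro (⟨h, rfl⟩ | ⟨h | h, rfl⟩)
        · exact absurd h (hv _)
        · exact Or.inl ⟨rfl, h⟩
        · exact Or.inr ⟨rfl, by omega⟩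
    · have hne : (v, i + 1) ≠ (v, i - 1) := by
        intro h
        have := congrArg Prod.snd h
        simp only at this
        omega
      have hc : ({(v, i + 1), (v, i - 1)} : Finset (V × ℤ)).card = 2 := Finset.card_pair hne
      refine ⟨by rw [hc]; norm_num, ?_⟩
      rw [hc, Finset.sum_pair hne]
      have h4 := h2 v i hv
      have h5 : (2 : ℚ) * φ (v, i) = φ (v, i + 1) + φ (v, i - 1) := by exact_mod_cast h4
      push_cast
      linarith

end Pool.Agent.Results.MP_997ab3_co.MaxDegreeOne
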